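import Pool.Agent.V5helper54.GP.Stm
import Pool.Agent.V5helper51.SG.Short
import Pool.Agent.V5helper51.MW.All

/-! # Project GP, CORE: the circle method -/

set_option autoImplicit false

namespace Pool.Agent.V5helper54.GP

open Finset
open Pool.Agent.H373R2.T7
open Pool.Agent.Y877.SX
open Pool.Agent.V5helper51.SG
open Pool.Agent.V5helper51.MW (S_LAS)

theorem t_CORE : S_CORE := by
  intro C U
  obtain ⟨D, B0, h0⟩ := Pool.Agent.V5helper51.MW.las_all 1 1 C 0 U le_rfl
  refine ⟨D, B0, fun E => ?_⟩
  obtain ⟨N0, hN0⟩ := h0 E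
  refine ⟨max N0 1, fun n hn M T z hM1 hM hT hz1 hz2 S hS hSq => ?_⟩
  have b1 : N0 ≤ n := le_trans (le_max_left _ _) hn
  have b2 : 1 ≤ n := le_trans (le_max_right _ _) hn
  have hn1 : (1 : ℝ) ≤ n := by exact_mod_cast b2
  have hL0 : 0 ≤ Real.log (n : ℝ) := Real.log_nonneg hn1
  rcases S.eq_empty_or_nonempty with hem | ⟨q0, hq0⟩
  · subst hem
    simp only [sum_empty, abs_zero, sum_const_zero]
    positivity
  have hMT2 : M * (T + 2) ≤ n := by
    have := hSq q0 hq0
    omega
  have hMT : M * T ≤ n := le_trans (Nat.mul_le_mul_left M (by omega)) hMT2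
  have hsx : ∀ q ∈ S, 1 ≤ q ∧ q ≤ n := fun q hq => mem_Icc.1 (hS hq)
  obtain ⟨c, hc⟩ : ∃ c : ℕ → ℂ, c = fun a : ℕ => if n + 1 - a ∈ S then 1 else 0 := ⟨_, rfl⟩
  obtain ⟨sg, hsg⟩ : ∃ sg : ℕ → ℤ, sg = fun m : ℕ => -1 - (M : ℤ) * ((m : ℤ) - 1) := ⟨_, rfl⟩
  have hbil := hN0 n b1 (M * T) (by
      calc (n : ℝ) ^ (1 / 3 : ℝ) * Real.log n ^ D ≤ T := hT
        _ ≤ ((M * T : ℕ) : ℝ) := by exact_mod_cast Nat.le_mul_of_pos_left T hM1) hMT T sg (-1) (by
      push_cast
      rw [one_mul]
      simpa using hn1) (by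
      intro m hm
      rw [mem_Icc] at hm
      have e1 : sg m - (-1) = -((M : ℤ) * ((m : ℤ) - 1)) := by
        rw [hsg]
        ring
      have h1 : (0 : ℤ) ≤ (m : ℤ) - 1 := by
        have : (1 : ℤ) ≤ m := by exact_mod_cast hm.1
        linarith
      rw [e1, abs_neg, abs_of_nonneg (by positivity)]
      push_cast
      rw [one_mul]
      have : (m : ℤ) - 1 ≤ T := by
        have : (m : ℤ) ≤ T := by exact_mod_cast hm.2
        linarith
      exact mul_le_mul_of_nonneg_left this (by positivity)) (by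
      have h1 : energy 1 T sg ≤ T := by
        apply energy_one
        intro a _ b _ hab
        rw [hsg] at hab
        simp only at hab
        have h2 : (M : ℤ) * ((a : ℤ) - 1) = M * ((b : ℤ) - 1) := by linarith
        have h3 : (a : ℤ) - 1 = (b : ℤ) - 1 := mul_left_cancel₀ (by exact_mod_cast (by omega : M ≠ 0)) h2
        have h4 : (a : ℤ) = b := by linarith
        exact_mod_cast h4
      have h2 : (energy 1 T sg : ℝ) ≤ T := by exact_mod_cast h1
      calc (energy 1 T sg : ℝ) * (M * T : ℕ) ≤ T * (M * T : ℕ) := mul_le_mul_of_nonneg_right h2 (Nat.cast_nonneg _)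
        _ = M * T ^ 2 := by push_cast; ring
        _ ≤ Real.log n ^ C * (T : ℝ) ^ (2 * 1) := by
            rw [mul_one]
            exact mul_le_mul_of_nonneg_right hM (by positivity)) n (by omega) z hz1 hz2 c (by
      have h1 : ∀ a ∈ Icc 1 n, ‖c a‖ ^ 2 ≤ 1 := by
        intro a _
        rw [hc]
        simp only
        split_ifs <;> simp
      refine (sum_le_sum h1).trans ?_
      rw [sum_const, Nat.card_Icc, nsmul_eq_mul, mul_one, Nat.add_sub_cancel, pow_zero, mul_one])
  have hinner : ∀ t ∈ range T, ‖∑ a ∈ Icc 1 n, c a * ((lamI (a + sg (t + 1)) - lamzI z (a + sg (t + 1)) : ℝ) : ℂ)‖ =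
      |∑ q ∈ S, (ArithmeticFunction.vonMangoldt (n - q - M * t) - lamz z (n - q - M * t))| := by
    intro t ht
    rw [mem_range] at ht
    have hpos : ∀ q ∈ S, q + M * t + 1 ≤ n := by
      intro q hq
      have h1 := hSq q hq
      have h2 : M * (t + 1) ≤ M * (T + 2) := Nat.mul_le_mul_left M (by omega)
      have h3 : M * (t + 1) = M * t + M := by ring
      omega
    have e1 : ∑ a ∈ Icc 1 n, c a * ((lamI (a + sg (t + 1)) - lamzI z (a + sg (t + 1)) : ℝ) : ℂ) =
        ((∑ q ∈ S, (ArithmeticFunction.vonMangoldt (n - q - M * t) - lamz z (n - q - M * t)) : ℝ) : ℂ) := by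
      push_cast
      have e2 : ∑ q ∈ S, (((ArithmeticFunction.vonMangoldt (n - q - M * t) : ℝ) : ℂ) -
          ((lamz z (n - q - M * t) : ℝ) : ℂ)) =
          ∑ a ∈ (Icc 1 n).filter (fun a => n + 1 - a ∈ S), (((lamI (a + sg (t + 1)) : ℝ) : ℂ) -
            ((lamzI z (a + sg (t + 1)) : ℝ) : ℂ)) := by
        refine sum_bij' (fun q _ => n + 1 - q) (fun a _ => n + 1 - a) ?_ ?_ ?_ ?_ ?_
        · intro q hq
          have h1 := hsx q hq
          rw [mem_filter, mem_Icc]
          refine ⟨⟨by omega, by omega⟩, ?_⟩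
          have : n + 1 - (n + 1 - q) = q := by omega
          rw [this]
          exact hq
        · intro a ha
          exact (mem_filter.1 ha).2
        · intro q hq
          have h1 := hsx q hq
          omega
        · intro a ha
          have := mem_Icc.1 (mem_filter.1 ha).1
          omega
        · intro q hq
          have h1 := hsx q hq
          have h2 := hpos q hq
          have e3 : ((n + 1 - q : ℕ) : ℤ) + sg (t + 1) = ((n - q - M * t : ℕ) : ℤ) := by
            rw [hsg]
            push_cast [Nat.cast_sub (by omega : q ≤ n + 1), Nat.cast_sub (by omega : q ≤ n),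
              Nat.cast_sub (by omega : M * t ≤ n - q)]
            ring
          rw [e3]
          unfold lamI lamzI
          rw [if_pos (by exact_mod_cast (by omega : 1 ≤ n - q - M * t)),
            if_pos (by exact_mod_cast (by omega : 1 ≤ n - q - M * t)), Int.toNat_natCast]
      rw [e2, sum_filter]
      refine sum_congr rfl fun a _ => ?_
      rw [hc]
      simp only
      split_ifs
      · rw [one_mul]
      · rw [zero_mul]
    rw [e1, Complex.norm_real, Real.norm_eq_abs]
  rw [← sum_congr rfl hinner]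
  refine le_trans (le_of_eq ?_) hbil
  have e5 : Icc 1 T = Ico 1 (1 + T) := by
    ext a
    simp only [mem_Icc, mem_Ico]
    omega
  rw [e5, sum_Ico_eq_sum_range, Nat.add_sub_cancel_left]
  apply sum_congr rfl
  intro t _
  rw [add_comm 1 t]

end Pool.Agent.V5helper54.GP
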