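import Pool.Agent.H373R2.T7.LamMaj
import Pool.Agent.H373R2.T7.SysCount
import Pool.Agent.H373R2.T7.LamZ2
import Pool.Agent.H560R3.GB.Defs

/-!
# Project GP: Goldbach's problem with one randomly perturbed prime

Row MP_dd84fd_nt. Let `θ_q` (`q` prime) be independent random integers, `θ_q` spread over `{0, …, T_j - 1}`,
`j = ⌊log₂ q⌋`, and `q' = q + M_j θ_q`: a random perturbation of the primes which keeps all congruences modulo `M_j`.
Then almost surely for ALL large even `n` the number of representations `n = p + q'`, `p` prime (NOT perturbed), `q`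
prime, is at least `(1 - ε) s n / log² n`, `s` the singular series of Hardy and Littlewood restricted to the primes
dividing the `M_j`; the perturbations are of the size `q ^ (1/3 + δ)` (any `δ > 0`).

Library: `Pool.Agent.H373R2.T7`: `pz z` (primes `≤ z`), `Vz z = ∏ (1 - 1/p)`, `lamz z n` (`= 1 / Vz z` if `n` has no
prime factor `≤ z`, else `0`), `lam_ap` (Siegel-Walfisz for `Λ`), `sys_count` (fundamental lemma, one sided conditions
`PerB Q c`), `Vz_inv_small` (`1 / Vz z ≤ log N` for `z ≤ log ^ E N`), `ev_log'`, `ev_L'`. An example of the use of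
`sys_count`: `single_cnt` in `Pool/Agent/Y877/SxB.lean` (with `root_ex`, `few_one`, `dvd_mod`); an example of the use of
`lam_ap`: `many_good` in `Pool/Agent/V5helper54/CS/Cls2.lean`.
-/

set_option autoImplicit false

namespace Pool.Agent.V5helper54.GP

open Finset Filter MeasureTheory ProbabilityTheory
open Pool.Agent.H373R2.T7

/-- the singular series of Hardy and Littlewood for the number `n`, restricted to the primes dividing `M` -/
noncomputable def sing (M n : ℕ) : ℝ :=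
  ∏ p ∈ M.primeFactors, (if p ∣ n then (p : ℝ) / (p - 1) else (p : ℝ) * (p - 2) / (p - 1) ^ 2)

/-- **NC** (80 lines): the number of the classes `c mod M` such that `c` and `n - c ≡ n + (M - 1) c` are coprime to `M`.
Proof. For squarefree `M = ∏_{p ∈ A} p`: `crt_count` in `Pool/Agent/V5helper54/CS/Cls.lean` with
`T p = {c ∈ ZMod p : c ≠ 0, c ≠ n}`, which has `p - 1` elements if `p ∣ n` and `p - 2` otherwise (`p = 2` included).
In general let `R = ∏_{p ∣ M} p` be the radical: the condition depends on `c mod R` only (an integer is coprime to `M` iff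
it is not divisible by any `p ∣ M`), so the count for `M` is `M / R` times the count for `R`
(`Nat.count_modEq_card`-like, or `c = R a + b`, `a < M / R`, `b < R`), and `φ(M) = (M / R) φ(R)`
(`Nat.totient_eq_div_primeFactors_mul` or `Nat.totient_mul_prod_primeFactors`). Other proofs (multiplicativity) are
welcome. -/
def S_NC : Prop := ∀ M n : ℕ, 1 ≤ M →
  (M : ℝ) * (((range M).filter (fun c => c.Coprime M ∧ (n + (M - 1) * c).Coprime M)).card : ℝ) =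
    sing M n * (Nat.totient M : ℝ) ^ 2

/-- **CLS** (150 lines, uses NC as a hypothesis): the primes `q ∈ (a, b]` with `n - q` coprime to `M`.
Proof. Let `L = log n`, `U = 2 C + 2`. For every class `c < M` of NC (`c` and `n + (M - 1) c` coprime to `M`), by
`lam_ap C U` at `y = b` and at `y = a`,
`∑_{q ∈ (a,b], q ≡ c (M)} Λ(q) ≥ (b - a) / φ(M) - 2 n / L ^ U`. The classes are disjoint, and `q ≡ c`, `q ≤ n` imply that
`n - q` is coprime to `M` (`n - q ≡ n + (M - 1) q`). So with `N` = number of the classes,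
`∑_{q ∈ (a,b], (n - q, M) = 1} Λ(q) ≥ N (b - a) / φ(M) - 2 M n / L ^ U`. The `q` which are not prime contribute at most
`2 √n log n` (`Chebyshev.psi_sub_theta_le` and `psi_sub_theta_eq_sum_not_prime`, see `pp_le` in
`Pool/Agent/V5helper51/SG/Short.lean`), and `Λ(q) ≤ L` for the primes. Multiply by `M / φ(M) ≤ M`; by NC
`M N / φ(M) ^ 2 = sing M n`. The errors `2 M ^ 2 n / L ^ U + 2 M √n L` are at most `ε n ≤ ε n sing M n`. -/
def S_CLS : Prop := ∀ (C : ℕ) (ε : ℝ), 0 < ε → ∃ n0 : ℕ, ∀ n : ℕ, n0 ≤ n → ∀ M : ℕ, 1 ≤ M → (M : ℝ) ≤ Real.log n ^ C →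
  1 ≤ sing M n → ∀ a b : ℕ, a ≤ b → b ≤ n →
  sing M n * ((b : ℝ) - a - ε * n) ≤ Real.log n * ((M : ℝ) / (Nat.totient M : ℝ)) *
    (((Ioc a b).filter (fun q => q.Prime ∧ (n - q).Coprime M)).card : ℝ)

/-- **RO** (100 lines): integers without small prime factors in a progression.
Proof. `sys_count 1 E (U + 1)` with `Q p g := p.Prime ∧ ¬ p ∣ M ∧ p ∣ v + M * g`: `nuB Q p = 1` for the primes
`p ≤ z` not dividing `M` (`root_ex`, `few_one` in `Pool/Agent/Y877/SxB.lean`), `0` for the others. As `v` is coprime to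
`M`, no prime `p ∣ M` divides `v + M g`, so `v + M g` has no prime factor `≤ z` iff `¬ Q p g` for all `p ∈ pz z`. All
prime factors of `M` are `≤ M ≤ z`, so `∏_{p ∈ pz z} (1 - nuB Q p / p) = Vz z * (M / φ(M))`
(`Nat.totient_eq_mul_prod_factors`). Multiply by `(Vz z)⁻¹ ≤ log T` (`Vz_inv_small`). -/
def S_RO : Prop := ∀ E U : ℕ, ∃ T0 : ℕ, ∀ T : ℕ, T0 ≤ T → ∀ z M v : ℕ, 1 ≤ M → M ≤ z → (z : ℝ) ≤ Real.log T ^ E →
  v.Coprime M →
  |∑ g ∈ Icc 1 T, lamz z (v + M * g) - T * ((M : ℝ) / (Nat.totient M : ℝ))| ≤ T / Real.log T ^ U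

/-- **CORE** (helper54): the circle method. -/
def S_CORE : Prop := ∀ C U : ℕ, ∃ D B0 : ℕ, ∀ E : ℕ, ∃ n0 : ℕ, ∀ n : ℕ, n0 ≤ n → ∀ M T z : ℕ, 1 ≤ M →
  (M : ℝ) ≤ Real.log n ^ C → (n : ℝ) ^ (1 / 3 : ℝ) * Real.log n ^ D ≤ T → Real.log n ^ B0 ≤ z →
  (z : ℝ) ≤ Real.log n ^ E → ∀ S : Finset ℕ, S ⊆ Icc 1 n → (∀ q ∈ S, q + M * (T + 2) ≤ n) →
  ∑ t ∈ range T, |∑ q ∈ S, (ArithmeticFunction.vonMangoldt (n - q - M * t) - lamz z (n - q - M * t))| ≤
    n * T / Real.log n ^ U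

/-- **EXP** (150 lines, uses CORE and RO as hypotheses): a lower bound for the expectation, for an arbitrary set `S`.
Proof. Let `L = log n`, take `D ≥ 1` and `B0` of CORE for `C` and `U + 2`, `z = ⌈L ^ (B0 + C + 1)⌉`, so `M ≤ z` and
`z ≤ L ^ (B0 + C + 2) ≤ (log T) ^ (B0 + C + 3)` (as `log T ≥ L / 3` and `L` is large), `E = B0 + C + 3`.
For `q ∈ S` with `(n - q, M) = 1` put `v = n - q - M T` (a positive integer, coprime to `M`); the substitution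
`g = T - t` gives `∑_{t < T} lamz z (n - q - M t) = ∑_{g ∈ [1, T]} lamz z (v + M g) ≥ T M / φ(M) - T / (log T) ^ (U + 2)`
(RO); for the other `q ∈ S` the sum is `≥ 0`. So
`∑_t ∑_{q ∈ S} Λ(n - q - M t) ≥ T (M / φ(M)) #{q ∈ S : (n - q, M) = 1} - n T / (log T) ^ (U + 2) - n T / L ^ (U + 2)`.
For every `t` the `q ∈ S` for which `n - q - M t` is not prime contribute to the left side at most `2 √n log n` (see
`pp_le` in `Pool/Agent/V5helper51/SG/Short.lean`; the numbers `n - q - M t ≤ n` are different for different `q`), and the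
others at most `L` each. All the errors together are at most `n T / L ^ U` for large `n`. -/
def S_EXP : Prop := ∀ C U : ℕ, ∃ D n0 : ℕ, ∀ n : ℕ, n0 ≤ n → ∀ M T : ℕ, 1 ≤ M → (M : ℝ) ≤ Real.log n ^ C →
  (n : ℝ) ^ (1 / 3 : ℝ) * Real.log n ^ D ≤ T → ∀ S : Finset ℕ, S ⊆ Icc 1 n → (∀ q ∈ S, q + M * (T + 2) ≤ n) →
  T * ((M : ℝ) / (Nat.totient M : ℝ) * ((S.filter (fun q => (n - q).Coprime M)).card : ℝ) - n / Real.log n ^ U) ≤
    Real.log n * ∑ q ∈ S, (((range T).filter (fun t => (n - q - M * t).Prime)).card : ℝ)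

/-- the parameters of the perturbations: `q' = q + M_j θ_q`, `θ_q < T_j`, for `2 ^ j ≤ q < 2 ^ (j + 1)` -/
def Adm (γ : ℝ) (C : ℕ) (M T : ℕ → ℕ) : Prop :=
  ∀ᶠ j : ℕ in atTop, 1 ≤ M j ∧ M j ≤ j ^ C ∧ (2 : ℝ) ^ (γ * j) ≤ T j ∧ j * (M j * T j) ≤ 2 ^ j

/-- **TOT** (200 lines, uses EXP and CLS as hypotheses): the sum over all blocks `2 ^ j ≤ q < 2 ^ (j + 1)`.
Proof. We may assume `ε ≤ 1`. Let `η = 2 ^ (-k)` be small with respect to `ε` (`5 η ≤ ε / 2`), and let `n` be large. For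
`j = J - k, …, J`, `J = ⌊log₂ n⌋` (so `2 ^ J ≤ n < 2 ^ (J + 1)`), let `S_j` be the primes `q` with
`2 ^ j ≤ q < 2 ^ (j + 1)`, `q ≤ (1 - η) n`, i.e. `q ∈ (a_j, b_j]`, `a_j = 2 ^ j - 1`, `b_j = min (2 ^ (j + 1) - 1, ⌊(1 - η) n⌋)`
(only the `j` with `a_j ≤ b_j`); `q ∈ S_j` has `Nat.log 2 q = j` and `n ≤ 2 ^ (2 j)`. As `j ≥ J - k` is large,
`M_j T_j ≤ 2 ^ j / j ≤ n / j` and `2 M_j ≤ η n / 2`, so `q + M_j (T_j + 2) ≤ n`; `M_j ≤ j ^ C ≤ (2 log n) ^ C ≤ log ^ (C + 1) n`;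
`T_j ≥ 2 ^ (γ j) ≥ (η n / 2) ^ γ ≥ n ^ (1/3) log ^ D n`. By EXP (for `C + 1`, `U = 3`) and CLS (for `C + 1` and a small
`ε'`, e.g. `ε' (k + 1) ≤ η`), with `L = log n`,
`∑_{q ∈ S_j} #{t < T_j : n - q - M_j t prime} / T_j ≥ (1 / L) (sing (M_j) n ((b_j - a_j) - ε' n) / L - n / L ^ 3)`
`≥ (s ((b_j - a_j) - ε' n)) / L ^ 2 - n / L ^ 4` if `b_j - a_j ≥ ε' n`, and `≥` the same if not, since then the right side
is negative. Sum over `j`: `∑_j (b_j - a_j) ≥ (1 - η) n - 1 - 2 ^ (J - k) ≥ (1 - 2 η) n - 1`, and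
`(k + 1) n / L ^ 4 ≤ η s n / L ^ 2` as `s ≥ 1`. The sum is at least `(1 - 5 η) s n / L ^ 2`. -/
def S_TOT : Prop := ∀ (γ : ℝ) (C : ℕ) (M T : ℕ → ℕ), 1 / 3 < γ → Adm γ C M T → ∀ ε : ℝ, 0 < ε →
  ∃ n0 : ℕ, ∀ n : ℕ, n0 ≤ n → ∀ s : ℝ, 1 ≤ s → (∀ j : ℕ, n ≤ 2 ^ (2 * j) → 2 ^ j ≤ n → s ≤ sing (M j) n) →
  (1 - ε) * s * n / Real.log n ^ 2 ≤
    ∑ q ∈ (Icc 1 n).filter (fun q => q.Prime ∧ n ≤ 2 ^ (2 * Nat.log 2 q)),
      (((range (T (Nat.log 2 q))).filter (fun t => (n - q - M (Nat.log 2 q) * t).Prime)).card : ℝ) / T (Nat.log 2 q)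

/-- **PROB** (120 lines): lower tails for sums of independent indicators, and Borel-Cantelli.
Proof. We may assume `ε ≤ 1`. Let `X_n` be the cardinality, a sum of independent indicators with probabilities
`p_q`, `∑ p_q ≥ E n`. For `λ = ε / 2` (or any fixed `λ > 0` with `1 - exp (-λ) ≥ λ (1 - ε / 2)`, e.g. `λ = ε / 2`, as
`1 - exp (-λ) ≥ λ - λ ^ 2 / 2`): `E exp (-λ X_n) = ∏ (1 - p_q (1 - exp (-λ))) ≤ exp (-(1 - exp (-λ)) E n)`, so
`μ {X_n ≤ (1 - ε) E n} ≤ exp (λ (1 - ε) E n - (1 - exp (-λ)) E n) ≤ exp (-λ ε E n / 2) ≤ exp (-(ε ^ 2 / 4) √n)` if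
`E n ≥ √n`, which is summable; Borel-Cantelli (`measure_limsup_atTop_eq_zero` or `ae_eventually_notMem`) for the sets
`{√n ≤ E n and X_n < (1 - ε) E n}`. Mathlib: `iIndepFun.comp`, `iIndepFun.mgf_sum`, `measure_le_le_exp_mul_mgf`. -/
def S_PROB.{u} : Prop := ∀ {Ω : Type u} [MeasurableSpace Ω] (μ : Measure Ω) [IsProbabilityMeasure μ] (θ : ℕ → Ω → ℕ),
  (∀ q, Measurable (θ q)) → iIndepFun θ μ → ∀ (I : ℕ → Finset ℕ) (B : ℕ → ℕ → Set ℕ) (E : ℕ → ℝ),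
  (∀ n, E n ≤ ∑ q ∈ I n, μ.real {ω | θ q ω ∈ B n q}) → ∀ ε : ℝ, 0 < ε →
  ∀ᵐ ω ∂μ, ∀ᶠ n : ℕ in atTop, √(n : ℝ) ≤ E n →
    (1 - ε) * E n ≤ ((open Classical in (I n).filter (fun q => θ q ω ∈ B n q)).card : ℝ)

/-- **CTW** (80 lines): the singular series of an even number is at least `2 C₂` and at least `1`.
Proof. `2 ∈ M.primeFactors` contributes `2 / (2 - 1) = 2` as `2 ∣ n`; for `p > 2` both `p / (p - 1)` and
`p (p - 2) / (p - 1) ^ 2 = 1 - 1 / (p - 1) ^ 2` are at least `1 - 1 / (p - 1) ^ 2 ∈ (0, 1)`; so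
`sing M n ≥ 2 ∏_{3 ≤ p ≤ M} (1 - 1 / (p - 1) ^ 2)`, which is `≥ 2 C₂` (`C₂` is the infimum, bounded below by `0`) and
`≥ 2 ∏_{2 ≤ k ≤ M} (1 - 1 / k ^ 2) ≥ 2 (1/2) = 1`. -/
def S_CTW : Prop := ∀ M n : ℕ, 1 ≤ M → 2 ∣ M → 2 ∣ n → 1 ≤ sing M n ∧ 2 * Pool.Agent.H560R3.GB.C₂ ≤ sing M n

end Pool.Agent.V5helper54.GP
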