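import Pool.Agent.V5helper54.GP.Stm

/-!
# Project GP, part 2: differences of a prime and a perturbed prime; upper bounds (asymptotic formulas)

Rows MP_70e905_nt (every even number is a difference of two primes) and MP_629a14_nt (order of magnitude of the number
of Goldbach representations). See `Pool.Agent.V5helper54.GP.Stm` for the library and for part 1.
-/

set_option autoImplicit false

namespace Pool.Agent.V5helper54.GP

open Finset Filter MeasureTheory ProbabilityTheory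
open Pool.Agent.H373R2.T7

/-- **CORE2** (helper54): the circle method for differences. -/
def S_CORE2 : Prop := ∀ C U : ℕ, ∃ D B0 : ℕ, ∀ E : ℕ, ∃ n0 : ℕ, ∀ n : ℕ, n0 ≤ n → ∀ M T z : ℕ, 1 ≤ M →
  (M : ℝ) ≤ Real.log n ^ C → (n : ℝ) ^ (1 / 3 : ℝ) * Real.log n ^ D ≤ T → M * T ≤ n → Real.log n ^ B0 ≤ z →
  (z : ℝ) ≤ Real.log n ^ E → ∀ a : ℤ, |a| ≤ n → ∀ S : Finset ℕ, S ⊆ Icc 1 n → (∀ q ∈ S, 1 ≤ (q : ℤ) + a) →
  ∑ t ∈ range T, |∑ q ∈ S, (ArithmeticFunction.vonMangoldt ((q : ℤ) + a + (M : ℤ) * (t : ℤ)).toNat -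
    lamz z ((q : ℤ) + a + (M : ℤ) * (t : ℤ)).toNat)| ≤ n * T / Real.log n ^ U

/-- **EXP2** (150 lines, uses CORE2 and RO as hypotheses; the same as EXP with other signs, the author of EXP has first
choice): a lower bound for the expectation, for an arbitrary set `S`.
Proof. Let `L = log n`, take `D ≥ 1` and `B0` of CORE2 for `C` and `U + 2`, `z = ⌈L ^ (B0 + C + 1)⌉`, so `M ≤ z` and
`z ≤ (log T) ^ (B0 + C + 3)`. For `q ∈ S` with `q + a` coprime to `M` apply RO to `g ↦ v + M g` with `v = q + a`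
(a positive integer) and `g ∈ [1, T]`; the sums over `t ∈ range T` and over `g ∈ [1, T]` differ by the terms `t = 0` and
`g = T`, each at most `(Vz z)⁻¹ ≤ L`. So `∑_{t < T} lamz z (q + a + M t) ≥ T M / φ(M) - T / (log T) ^ (U + 2) - L`; for the other `q ∈ S` the sum
is `≥ 0`. So `∑_t ∑_{q ∈ S} Λ(q + a + M t) ≥ T (M / φ(M)) #{q ∈ S : (q + a, M) = 1} - n T / L ^ U` (large `n`), and for
every `t` the `q` for which `q + a + M t` (different integers in `[1, 3 n]`) is not prime contribute at most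
`2 √(3 n) log (3 n)`, the others at most `log (3 n)` each. -/
def S_EXP2 : Prop := ∀ C U : ℕ, ∃ D n0 : ℕ, ∀ n : ℕ, n0 ≤ n → ∀ M T : ℕ, 1 ≤ M → (M : ℝ) ≤ Real.log n ^ C →
  (n : ℝ) ^ (1 / 3 : ℝ) * Real.log n ^ D ≤ T → M * T ≤ n → ∀ a : ℤ, |a| ≤ n → ∀ S : Finset ℕ, S ⊆ Icc 1 n →
  (∀ q ∈ S, 1 ≤ (q : ℤ) + a) →
  T * ((M : ℝ) / (Nat.totient M : ℝ) * ((S.filter (fun q : ℕ => ((q : ℤ) + a).toNat.Coprime M)).card : ℝ) -
    n / Real.log n ^ U) ≤
    Real.log (3 * n) * ∑ q ∈ S, (((range T).filter (fun t : ℕ => ((q : ℤ) + a + (M : ℤ) * (t : ℤ)).toNat.Prime)).card : ℝ)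

/-- **TOT2** (200 lines, uses EXP2 and CLS as hypotheses; the same as TOT with other signs, the author of TOT has first
choice): the sum over all blocks.
Proof. As for TOT, with `S_j` = the primes `q` with `2 ^ j ≤ q < 2 ^ (j + 1)`, `q ≤ n`, `q > -a`, `j = J - k, …, J`
(`(a_j, b_j]` with `a_j = max (2 ^ j - 1) (-a)`, `b_j = min (2 ^ (j + 1) - 1) n`; only the `j` with `a_j ≤ b_j`).
For `j` let `n' = M_j m - a`, `m` least with `n' ≥ n`, so `n ≤ n' ≤ 2 n`, `n' ≡ - a` mod `M_j`: for `q ≤ n`, `q > - a`, the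
number `n' - q` is coprime to `M_j` iff `q + a` is, and `sing M_j n' = sing M_j |a|` (a prime `p ∣ M_j` divides `n'` iff it
divides `a`). So CLS (for `n'`) bounds the number of the `q ∈ S_j` with `q + a` coprime to `M_j` from below. The sum of the
lengths `b_j - a_j` is at least `n - max 0 (-a) - 2 η n`. (The right side of the claim is `≥ 0`, so if
`n - max 0 (-a) - ε n ≤ 0` there is nothing to prove.) `log (3 n) ≤ (1 + η) log n` for large `n`. -/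
def S_TOT2 : Prop := ∀ (γ : ℝ) (C : ℕ) (M T : ℕ → ℕ), 1 / 3 < γ → Adm γ C M T → ∀ ε : ℝ, 0 < ε →
  ∃ n0 : ℕ, ∀ n : ℕ, n0 ≤ n → ∀ a : ℤ, |a| ≤ n → ∀ s : ℝ, 1 ≤ s →
  (∀ j : ℕ, n ≤ 2 ^ (2 * j) → 2 ^ j ≤ n → s ≤ sing (M j) a.natAbs) →
  s * ((n : ℝ) - max 0 (-(a : ℝ)) - ε * n) / Real.log n ^ 2 ≤
    ∑ q ∈ (Icc 1 n).filter (fun q : ℕ => q.Prime ∧ n ≤ 2 ^ (2 * Nat.log 2 q) ∧ 1 ≤ (q : ℤ) + a),
      (((range (T (Nat.log 2 q))).filter (fun t : ℕ => ((q : ℤ) + a + (M (Nat.log 2 q) : ℤ) * (t : ℤ)).toNat.Prime)).card : ℝ) /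
        T (Nat.log 2 q)

/-- **CLSU** (150 lines, uses NC as a hypothesis; the upper bound belonging to CLS, the author of CLS has first choice).
Proof. As for CLS, with the upper bounds of `lam_ap C (U + 2 C + 1)` and `∑_{q prime, q ≡ c} log q ≤ ∑_{q ≡ c} Λ(q)`. The
primes `q` with `n - q` coprime to `M` lie in the classes of NC, except for the prime divisors of `M`, the sum of the
`log q` over which is at most `log M`. -/
def S_CLSU : Prop := ∀ C U : ℕ, ∃ n0 : ℕ, ∀ n : ℕ, n0 ≤ n → ∀ M : ℕ, 1 ≤ M → (M : ℝ) ≤ Real.log n ^ C →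
  ∀ a b : ℕ, a ≤ b → b ≤ n →
  (M : ℝ) / (Nat.totient M : ℝ) * ∑ q ∈ (Ioc a b).filter (fun q => q.Prime ∧ (n - q).Coprime M), Real.log q ≤
    sing M n * ((b : ℝ) - a) + n / Real.log n ^ U

/-- **EXPU** (150 lines, uses CORE and RO as hypotheses; the upper bound belonging to EXP).
Proof. As for EXP. RO gives the upper bound `T M / φ(M) + T / (log T) ^ (U + 2)` for the `q` with `(n - q, M) = 1`; for the
other `q` all terms `lamz z (n - q - M t)` are `0` (a prime divisor of `(n - q, M)` is `≤ M ≤ z` and divides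
`n - q - M t`). Every prime `n - q - M t` is at least `y` and contributes at least `log y` to `∑ Λ`. -/
def S_EXPU : Prop := ∀ C U : ℕ, ∃ D n0 : ℕ, ∀ n : ℕ, n0 ≤ n → ∀ M T : ℕ, 1 ≤ M → (M : ℝ) ≤ Real.log n ^ C →
  (n : ℝ) ^ (1 / 3 : ℝ) * Real.log n ^ D ≤ T → ∀ S : Finset ℕ, S ⊆ Icc 1 n → ∀ y : ℕ, 1 ≤ y →
  (∀ q ∈ S, q + M * (T + 2) + y ≤ n) →
  Real.log y * ∑ q ∈ S, (((range T).filter (fun t => (n - q - M * t).Prime)).card : ℝ) ≤
    T * ((M : ℝ) / (Nat.totient M : ℝ) * ((S.filter (fun q => (n - q).Coprime M)).card : ℝ) + n / Real.log n ^ U)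

/-- **BTU** (80 lines): Brun-Titchmarsh for the numbers `m - M t`, `t < T` (natural subtraction, `0` is not prime).
Proof. (1) Only the `t` with `M t < m` matter. Let `N` be their number: `N ≤ T`, they are `t = 0, …, N - 1`, and
`m - M t = v + M (N - 1 - t)` with `v = m - M (N - 1) ≥ 1`. By `exists_BTC` in `Pool/Agent/H426R3/CP/BT.lean` the number of
primes is at most `C (M / φ(M)) N / log N` if `N ≥ 2`; `N / log N ≤ 2 T / log T` for `2 ≤ N ≤ T` up to a constant factor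
(`x / log x` is increasing for `x ≥ e`). If `N ≤ 1` there is at most one prime, and `1 ≤ 4 T / log T`.
(2) If `d = gcd (m, M) > 1`, then `d` divides `m - M t`, so a prime `m - M t` is equal to `d`: at most one `t`. -/
def S_BTU : Prop := (∃ C : ℝ, 0 < C ∧ ∀ m M T : ℕ, 1 ≤ M → 2 ≤ T →
    (((range T).filter (fun t => (m - M * t).Prime)).card : ℝ) ≤ C * ((M : ℝ) / (Nat.totient M : ℝ)) * T / Real.log T) ∧
  ∀ m M T : ℕ, 1 ≤ M → ¬ m.Coprime M → ((range T).filter (fun t => (m - M * t).Prime)).card ≤ 1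

/-- **TOTU** (250 lines, uses EXPU, CLSU, BTU as hypotheses): the upper bound belonging to TOT.
Proof. We may assume `ε ≤ 1`. Let `η = 2 ^ (-k)` be small with respect to `ε` and the constant `C` of BTU, `n` large,
`L = log n`, `J = ⌊log₂ n⌋`. (A) The primes `q ∈ S_j` (as in TOT: `q ≤ (1 - η) n`, `2 ^ j ≤ q < 2 ^ (j + 1)`,
`J - k ≤ j ≤ J`): EXPU with `y = ⌊η n / 2⌋`, so `log y ≥ (1 - η) L`, and CLSU (as `log q ≥ (1 - η) L`, the number of the
`q ∈ S_j` with `(n - q, M_j) = 1` is at most `(φ(M_j) / M_j) (s (b_j - a_j) + n / L ^ U) / ((1 - η) L)`): these `q` contribute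
at most `s n / ((1 - η) L) ^ 2 +` small. (B) The other primes `q ≤ n` with `n ≤ 2 ^ (2 j)`, i.e. `2 ^ j ≥ √n`: they are in
`[√n, 2 η n]` or in `((1 - η) n, n]`. `T_j ≥ 2 ^ (γ j) ≥ n ^ (1/6)`, `log T_j ≥ L / 6`. By BTU such a `q`
contributes at most `6 C (M_j / φ(M_j)) / L` if `(n - q, M_j) = 1`, and at most `1 / T_j ≤ n ^ (-1/6)` otherwise (the latter
in total at most `n ^ (5/6)`). By CLSU for every block (part of a block), as `log q ≥ L / 2`,
`∑_{q in the part, (n - q, M_j) = 1} M_j / φ(M_j) ≤ (2 / L) (s · length + n / L ^ U)`; the sum of the lengths is at most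
`4 η n`, the number of blocks at most `2 L`. Total: `(12 C / L ^ 2) (4 η s n + 2 n L / L ^ U)` with `U ≥ 3`: at most
`(ε / 4) s n / L ^ 2`. -/
def S_TOTU : Prop := ∀ (γ : ℝ) (C : ℕ) (M T : ℕ → ℕ), 1 / 3 < γ → Adm γ C M T → ∀ ε : ℝ, 0 < ε →
  ∃ n0 : ℕ, ∀ n : ℕ, n0 ≤ n → ∀ s : ℝ, 1 ≤ s → (∀ j : ℕ, n ≤ 2 ^ (2 * j) → 2 ^ j ≤ n → sing (M j) n ≤ s) →
  ∑ q ∈ (Icc 1 n).filter (fun q => q.Prime ∧ n ≤ 2 ^ (2 * Nat.log 2 q)),
      (((range (T (Nat.log 2 q))).filter (fun t => (n - q - M (Nat.log 2 q) * t).Prime)).card : ℝ) / T (Nat.log 2 q) ≤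
    (1 + ε) * s * n / Real.log n ^ 2

/-- **PROBU** (80 lines; the author of PROB has first choice): upper tails.
Proof. As for PROB, `E exp (λ X_n) ≤ exp ((exp λ - 1) E n)`, `exp λ - 1 ≤ λ + λ ^ 2` for `0 < λ ≤ 1`, `λ = ε / 2` (`ε ≤ 1`):
`μ {X_n > (1 + ε) E n} ≤ exp (-λ (1 + ε) E n + (λ + λ ^ 2) E n) = exp (-(ε ^ 2 / 4) E n)`. -/
def S_PROBU.{u} : Prop := ∀ {Ω : Type u} [MeasurableSpace Ω] (μ : Measure Ω) [IsProbabilityMeasure μ] (θ : ℕ → Ω → ℕ),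
  (∀ q, Measurable (θ q)) → iIndepFun θ μ → ∀ (I : ℕ → Finset ℕ) (B : ℕ → ℕ → Set ℕ) (E : ℕ → ℝ),
  (∀ n, ∑ q ∈ I n, μ.real {ω | θ q ω ∈ B n q} ≤ E n) → ∀ ε : ℝ, 0 < ε →
  ∀ᵐ ω ∂μ, ∀ᶠ n : ℕ in atTop, √(n : ℝ) ≤ E n →
    ((open Classical in (I n).filter (fun q => θ q ω ∈ B n q)).card : ℝ) ≤ (1 + ε) * E n

end Pool.Agent.V5helper54.GP
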